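import Pool.Agent.Lib.LU1_h15.GalDefs
import Mathlib.FieldTheory.Relrank

/-!
# The degree of an extension of fixed fields
-/

set_option autoImplicit false

namespace Pool.Agent.ALLZ

open Pool.Agent.LU1 (fixO mem_fixO)

universe u

variable {k Ω : Type u} [Field k] [Field Ω] [Algebra k Ω] {K : IntermediateField k Ω}
  {N : IntermediateField K Ω}

theorem fixO_anti {A B : Subgroup (N ≃ₐ[K] N)} (hAB : A ≤ B) : fixO K N B ≤ fixO K N A := by
  intro f hf
  obtain ⟨n, hn, hn'⟩ := (mem_fixO _ _ _ _).1 hf
  exact (mem_fixO _ _ _ _).2 ⟨n, hn, fun σ hσ => hn' σ (hAB hσ)⟩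

theorem card_mul_relIndex' {G : Type*} [Group G] {A B : Subgroup G} (hAB : A ≤ B) :
    Nat.card A * A.relIndex B = Nat.card B := by
  have h1 := Subgroup.relIndex_mul_relIndex (⊥ : Subgroup G) A B bot_le hAB
  rwa [Subgroup.relIndex_bot_left, Subgroup.relIndex_bot_left] at h1

theorem relfinrank_fixO [FiniteDimensional K N] {A B : Subgroup (N ≃ₐ[K] N)} (hAB : A ≤ B) :
    IntermediateField.relfinrank (fixO K N B) (fixO K N A) = A.relIndex B := by
  have hfin : Finite (N ≃ₐ[K] N) := inferInstance
  have h1 : IntermediateField.relfinrank (fixO K N B) (fixO K N A) =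
      IntermediateField.relfinrank ((IntermediateField.fixedField B).map N.val)
        ((IntermediateField.fixedField A).map N.val) := rfl
  rw [h1, IntermediateField.relfinrank_map_map]
  have hle : IntermediateField.fixedField B ≤ IntermediateField.fixedField A := by
    intro n hn
    rw [IntermediateField.mem_fixedField_iff] at hn ⊢
    exact fun σ hσ => hn σ (hAB hσ)
  have h2 := IntermediateField.relfinrank_mul_finrank_top hle
  rw [IntermediateField.finrank_fixedField_eq_card, IntermediateField.finrank_fixedField_eq_card,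
    ← card_mul_relIndex' hAB, mul_comm] at h2
  exact Nat.eq_of_mul_eq_mul_left Nat.card_pos h2

theorem finrank_fixO [FiniteDimensional K N] {A B : Subgroup (N ≃ₐ[K] N)} (hAB : A ≤ B) :
    FiniteDimensional (fixO K N B) (IntermediateField.extendScalars (fixO_anti hAB)) ∧
      Module.finrank (fixO K N B) (IntermediateField.extendScalars (fixO_anti hAB)) =
        A.relIndex B := by
  have hfin : Finite (N ≃ₐ[K] N) := inferInstance
  have h1 := relfinrank_fixO hAB
  rw [IntermediateField.relfinrank_eq_finrank_of_le (fixO_anti hAB)] at h1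
  refine ⟨Module.finite_of_finrank_pos ?_, h1⟩
  rw [h1]
  have : Finite (B ⧸ A.subgroupOf B) := inferInstance
  exact Nat.pos_of_ne_zero Subgroup.index_ne_zero_of_finite

end Pool.Agent.ALLZ
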